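import Pool.Agent.NPX.Stmts

/-!
# NPX, row MAN: the counting
-/

set_option autoImplicit false

open MeasureTheory Set Topology Pointwise

namespace Pool.Agent.NPX.H49

open Pool.Agent.LSG Pool.Agent.NPX

theorem man (hPwr : PwrStmt) (hExn : ExnStmt) (hFol : FolStmt) (hAvg : AvgStmt) (hTri : TriStmt)
    (hGnr : GnrStmt) (hSpb : SpbStmt) (hRpv : RpvStmt) : ManStmt := by
  intro K _ _ _ _ _ _ _ _ G hG p q hL
  classical
  obtain ⟨T0, hT, hT'⟩ := hL
  set T : C(G × Fin p, ℝ) →ₗ[ℝ] C(G × Fin q, ℝ) := T0.toLinearMap with hTdef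
  set U : C(G × Fin q, ℝ) →ₗ[ℝ] C(G × Fin p, ℝ) := T0.symm.toLinearMap with hUdef
  obtain ⟨c, hc⟩ := hRpv (G × Fin p) (G × Fin q) T hT
  obtain ⟨d, hd⟩ := hRpv (G × Fin q) (G × Fin p) U hT'
  have hTU : ∀ g, T (U g) = g := fun g => T0.apply_symm_apply g
  obtain ⟨S, hSc, hSG, hSpow, hSpc, hSpd⟩ := hSpb K G hG p q T c U d hc hd
  obtain ⟨-, -, -, -, uInf, -, -, -, -, ucong, V, hVne, hVu, hVd, hVcov⟩ := hPwr K
  by_contra hpq
  push Not at hpq
  have hpqR : (p : ℝ) + 1 ≤ q := by exact_mod_cast hpq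
  have hp0 : (0 : ℝ) ≤ p := Nat.cast_nonneg p
  set ε : ℝ := 1 / (2 * ((p : ℝ) + q)) with hε
  have hden : 0 < 2 * ((p : ℝ) + q) := by linarith
  have hε0 : 0 < ε := by positivity
  have hεm : ε * ((p : ℝ) + q) = 1 / 2 := by
    have hne : (p : ℝ) + q ≠ 0 := by linarith
    rw [hε]
    field_simp
  have hε1 : ε < 1 := by
    rw [hε, div_lt_one hden]
    linarith
  obtain ⟨δ, hδ, hA⟩ := hAvg K G hG V hVne hVu ε hε0 hε1
  obtain ⟨H, n, M, hHS, hM, hMδ, hE⟩ := hExn K G S hG p q T c hc hSc hSpc δ hδ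
  obtain ⟨F, F', hFne, hFS, hF'S, hFF, hF'⟩ := hFol K S V hSpow hVu H n ε hHS hε0
  have hQ : ∀ᵐ x ∂(mu K), Gn c S x ∧ Gn d S x :=
    (hGnr K G p q c S hSc hSpc).and (hGnr K G q p d S hSc hSpd)
  obtain ⟨x, hxG, ⟨gc, gd⟩, hcount⟩ := hA M F hM hMδ hFne _ hQ
  have hLI := hTri K G S p q T c U d x hc hd hTU hSG hxG hSpow hSpd.1 gc gd
  -- powers of x in S
  have hpowS : ∀ k : ℤ, x ^ k ∈ S → ¬ Inf K k := fun k hk hI => gc.pow k hI hk
  set Wf : Finset (ℤ × K) := (V ×ˢ F).filter (fun w => x ^ w.1 * w.2 ∈ M) with hWf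
  have hWeq : {w : ℤ × K | w.1 ∈ V ∧ w.2 ∈ F ∧ x ^ w.1 * w.2 ∈ M} = (Wf : Set (ℤ × K)) := by
    ext w
    simp only [hWf, Set.mem_ofPred_eq, Finset.coe_filter, Finset.mem_product, and_assoc]
  rw [hWeq, Set.ncard_coe_finset] at hcount
  have hmW : ∀ w ∈ Wf, w.1 ∈ V ∧ w.2 ∈ F ∧ x ^ w.1 * w.2 ∈ M := by
    intro w hw
    have : w ∈ (Wf : Set (ℤ × K)) := hw
    rw [← hWeq] at this
    exact this
  let bb : {w // w ∈ Wf} × Fin q → {b : G × Fin q // (b.1 : K) ∈ Tp S x} := fun t =>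
    ⟨(⟨x ^ t.1.1.1 * t.1.1.2, G.mul_mem (G.zpow_mem hxG _) (hSG (hFS _ (hmW _ t.1.2).2.1))⟩, t.2),
      ⟨t.1.1.1, hVu _ (hmW _ t.1.2).1, t.1.1.2, hFS _ (hmW _ t.1.2).2.1, rfl⟩⟩
  have hbinj : Function.Injective bb := by
    rintro ⟨⟨⟨u, s⟩, hw⟩, i⟩ ⟨⟨⟨u', s'⟩, hw'⟩, i'⟩ heq
    have h0 := congrArg Subtype.val heq
    have h1 : x ^ u * s = x ^ u' * s' := congrArg (fun z : G × Fin q => ((z.1 : G) : K)) h0
    have h2 : i = i' := congrArg (fun z : G × Fin q => z.2) h0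
    have hs := hFS _ (hmW _ hw).2.1
    have hs' := hFS _ (hmW _ hw').2.1
    have h3 : x ^ (u - u') = s' * s⁻¹ := by
      rw [zpow_sub]
      rw [mul_inv_eq_iff_eq_mul, eq_comm, mul_right_comm, mul_inv_eq_iff_eq_mul, eq_comm]
      rw [h1, mul_comm]
    have h4 : ¬ Inf K (u - u') := by
      apply hpowS
      rw [h3]
      exact S.mul_mem hs' (S.inv_mem hs)
    have h5 : u = u' := by
      by_contra hne
      exact h4 (hVd u (hmW _ hw).1 u' (hmW _ hw').1 hne)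
    subst h5
    have h6 : s = s' := mul_left_cancel h1
    subst h6
    subst h2
    rfl
  have hLI2 := hLI.comp bb hbinj
  -- the finite set which contains the supports
  let g : ℤ × K → G := fun t => if h : x ^ t.1 * t.2 ∈ G then ⟨x ^ t.1 * t.2, h⟩ else 1
  set A' : Finset (G × Fin p) :=
    ((V ×ˢ F') ×ˢ (Finset.univ : Finset (Fin p))).image (fun t => (g t.1, t.2)) with hA'
  have hA'card : A'.card ≤ V.card * F'.card * p := by
    refine Finset.card_image_le.trans ?_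
    rw [Finset.card_product, Finset.card_product, Finset.card_univ, Fintype.card_fin]
  have hsupp : ∀ t, ((c (bb t).1).filter fun a => (a.1 : K) ∈ Tp S x) ∈
      Finsupp.supported ℝ ℝ (A' : Set (G × Fin p)) := by
    rintro ⟨⟨⟨u, s⟩, hw⟩, i⟩
    rw [Finsupp.mem_supported]
    intro a ha
    rw [Finset.mem_coe, Finsupp.support_filter, Finset.mem_filter, Finsupp.mem_support_iff] at ha
    obtain ⟨ha1, ha2⟩ := ha
    obtain ⟨hu, hs, hMm⟩ := hmW _ hw
    simp only at hu hs hMm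
    obtain ⟨j, hj, hh⟩ := hE _ i a hMm ha1
    simp only at hh
    obtain ⟨u', hu', s', hs', hau⟩ := ha2
    set h := (a.1 : K) * ((x ^ u * s) ^ j)⁻¹ with hhdef
    have hsS : s ∈ S := hFS s hs
    have hhS : h ∈ S := hHS h hh
    have haeq : (a.1 : K) = x ^ (u * j) * (s ^ j * h) := by
      have h1 : (a.1 : K) = h * (x ^ u * s) ^ j := by
        rw [hhdef, inv_mul_cancel_right]
      rw [h1, mul_zpow, ← zpow_mul]
      rw [mul_comm h, mul_assoc]
    have hS1 : x ^ (u' - u * j) ∈ S := by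
      have h1 : x ^ (u' - u * j) = (s ^ j * h) * s'⁻¹ := by
        rw [zpow_sub, mul_inv_eq_iff_eq_mul, eq_comm]
        rw [mul_right_comm, mul_inv_eq_iff_eq_mul]
        rw [← hau, haeq, mul_comm]
      rw [h1]
      exact S.mul_mem (S.mul_mem (S.zpow_mem hsS j) hhS) (S.inv_mem hs')
    have hUn : Un K (u * j) := ucong u' (u * j) hu' (hpowS _ hS1)
    obtain ⟨v, hv, hvI⟩ := hVcov _ hUn
    have hf := hF' s hs h hh u hu v hv j hj hvI x
    have hav : (a.1 : K) = x ^ v * (s ^ j * h * x ^ (u * j - v)) := by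
      rw [haeq, zpow_sub]
      rw [mul_comm (s ^ j * h), ← mul_assoc (x ^ v), mul_comm (x ^ v), mul_assoc (x ^ (u * j)),
        inv_mul_cancel, mul_one]
    rw [hA', Finset.coe_image]
    refine ⟨((v, s ^ j * h * x ^ (u * j - v)), a.2), ?_, ?_⟩
    · rw [Finset.mem_coe, Finset.mem_product, Finset.mem_product]
      exact ⟨⟨hv, hf⟩, Finset.mem_univ _⟩
    · apply Prod.ext
      · apply Subtype.ext
        have hmem : x ^ v * (s ^ j * h * x ^ (u * j - v)) ∈ G := by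
          rw [← hav]; exact a.1.2
        simp only [g, dif_pos hmem]
        exact hav.symm
      · rfl
  set Wg : Finset (G × Fin p →₀ ℝ) := A'.image (fun i => Finsupp.single i (1 : ℝ)) with hWg
  have hrange : Set.range ((fun b : {b : G × Fin q // (b.1 : K) ∈ Tp S x} =>
      (c b.1).filter fun a => (a.1 : K) ∈ Tp S x) ∘ bb) ≤
      (Submodule.span ℝ (Wg : Set (G × Fin p →₀ ℝ)) : Set (G × Fin p →₀ ℝ)) := by
    rintro _ ⟨t, rfl⟩
    have h1 := hsupp t
    rw [Finsupp.supported_eq_span_single] at h1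
    rw [hWg, Finset.coe_image]
    exact h1
  have hle := linearIndependent_le_span' _ hLI2 (Wg : Set (G × Fin p →₀ ℝ)) hrange
  have hcard : Wf.card * q ≤ A'.card := by
    rw [Cardinal.mk_fintype] at hle
    have h1 : Fintype.card ({w // w ∈ Wf} × Fin q) ≤
        Fintype.card ↥(Wg : Set (G × Fin p →₀ ℝ)) := by exact_mod_cast hle
    rw [Fintype.card_prod, Fintype.card_coe, Fintype.card_fin] at h1
    have h2 : Fintype.card ↥(Wg : Set (G × Fin p →₀ ℝ)) = Wg.card := by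
      simp only [Finset.coe_sort_coe, Fintype.card_coe]
    rw [h2] at h1
    exact h1.trans Finset.card_image_le
  have hfinal : (q : ℝ) * ((1 - ε) * (V.card * F.card)) ≤ p * (V.card * ((1 + ε) * F.card)) := by
    have h1 : (Wf.card : ℝ) * q ≤ V.card * F'.card * p := by
      exact_mod_cast hcard.trans hA'card
    have hq0 : (0 : ℝ) ≤ q := Nat.cast_nonneg q
    have hV0 : (0 : ℝ) ≤ V.card := Nat.cast_nonneg _
    have h2 : (q : ℝ) * ((1 - ε) * (V.card * F.card)) ≤ q * Wf.card :=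
      mul_le_mul_of_nonneg_left hcount hq0
    have h3 : (p : ℝ) * (V.card * F'.card) ≤ p * (V.card * ((1 + ε) * F.card)) :=
      mul_le_mul_of_nonneg_left (mul_le_mul_of_nonneg_left hFF hV0) hp0
    linarith
  have hVpos : (0 : ℝ) < V.card := by exact_mod_cast Finset.card_pos.mpr hVne
  have hFpos : (0 : ℝ) < F.card := by exact_mod_cast Finset.card_pos.mpr hFne
  have hVF : 0 < (V.card : ℝ) * F.card := mul_pos hVpos hFpos
  have h5 : (q : ℝ) * (1 - ε) ≤ p * (1 + ε) := by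
    by_contra hlt
    push Not at hlt
    have := mul_lt_mul_of_pos_right hlt hVF
    nlinarith
  nlinarith

end Pool.Agent.NPX.H49
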